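import Mathlib

open Filter Topology Set TopologicalSpace

namespace R213LIS

theorem polish_of_isGδ {Y : Type*} [TopologicalSpace Y] [PolishSpace Y] {s : Set Y}
    (hs : IsGδ s) : PolishSpace s := by
  obtain ⟨U, hU, rfl⟩ := hs.eq_iInter_nat
  have : ∀ n, PolishSpace (U n) := fun n => (hU n).polishSpace
  let f : (⋂ n, U n : Set Y) → ∀ n, U n := fun x n => ⟨x, Set.mem_iInter.1 x.2 n⟩
  have hfc : Continuous f := continuous_pi (fun n => Continuous.subtype_mk continuous_subtype_val _)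
  have hg : Continuous (fun p : ∀ n, U n => (p 0 : Y)) :=
    continuous_subtype_val.comp (continuous_apply 0)
  have hind : Topology.IsInducing f := by
    apply Topology.IsInducing.of_comp hfc hg
    exact Topology.IsInducing.subtypeVal
  have hinj : Function.Injective f := by
    intro x y hxy
    have h1 := congrFun hxy 0
    have h2 : ((f x 0 : U 0) : Y) = ((f y 0 : U 0) : Y) := congrArg (fun z : U 0 => (z : Y)) h1
    exact Subtype.ext h2
  have hrange : Set.range f = ⋂ n, {p : ∀ n, U n | (p n : Y) = (p 0 : Y)} := by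
    ext p
    simp only [Set.mem_range, Set.mem_iInter]
    constructor
    · rintro ⟨x, rfl⟩ n
      rfl
    · intro h
      refine ⟨⟨p 0, Set.mem_iInter.2 (fun n => ?_)⟩, ?_⟩
      · have h2 : (p n : Y) = (p 0 : Y) := h n
        rw [← h2]
        exact (p n).2
      · funext n
        have h2 : (p n : Y) = (p 0 : Y) := h n
        exact Subtype.ext h2.symm
  have hcl : IsClosed (Set.range f) := by
    rw [hrange]
    apply isClosed_iInter
    intro n
    exact isClosed_eq (continuous_subtype_val.comp (continuous_apply n)) hg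
  exact Topology.IsClosedEmbedding.polishSpace (f := f) ⟨⟨hind, hinj⟩, hcl⟩

variable (𝕜 : Type*) [RCLike 𝕜] (E : Type*) [NormedAddCommGroup E] [NormedSpace 𝕜 E]

/-- The closed linear subspaces of `E`. -/
@[ext]
structure SB where
  /-- the underlying linear subspace -/
  sub : Submodule 𝕜 E
  /-- it is closed -/
  closed : IsClosed (sub : Set E)

variable {𝕜 E}

/-- `E⁺(U)`: the closed linear subspaces which meet `U`. -/
def Eplus (U : Set E) : Set (SB 𝕜 E) := {X | ((X.sub : Set E) ∩ U).Nonempty}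

section balls

variable [SeparableSpace E]

/-- Centres of the basic balls. -/
noncomputable def ctr (E : Type*) [NormedAddCommGroup E] [SeparableSpace E] (p : ℕ × ℕ) : E :=
  denseSeq E p.1

/-- Radii of the basic balls. -/
noncomputable def rad (p : ℕ × ℕ) : ℝ := 1 / ((p.2 : ℝ) + 1)

/-- The basic balls. -/
def bb (E : Type*) [NormedAddCommGroup E] [SeparableSpace E] (p : ℕ × ℕ) : Set E :=
  Metric.ball (ctr E p) (rad p)

lemma rad_pos (p : ℕ × ℕ) : 0 < rad p := by unfold rad; positivity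

lemma ctr_mem (p : ℕ × ℕ) : ctr E p ∈ bb E p := Metric.mem_ball_self (rad_pos p)

lemma isOpen_bb (p : ℕ × ℕ) : IsOpen (bb E p) := Metric.isOpen_ball

lemma exists_small (x : E) {ε : ℝ} (hε : 0 < ε) : ∃ p, x ∈ bb E p ∧ rad p < ε := by
  obtain ⟨n, hn⟩ := exists_nat_one_div_lt hε
  obtain ⟨i, hi⟩ := (denseRange_denseSeq E).exists_mem_open
    (Metric.isOpen_ball (x := x) (ε := 1 / ((n : ℝ) + 1))) ⟨x, Metric.mem_ball_self (by positivity)⟩
  refine ⟨(i, n), ?_, hn⟩
  have h : dist (denseSeq E i) x < 1 / ((n : ℝ) + 1) := hi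
  rw [dist_comm] at h
  exact h

lemma exists_in_open (x : E) {U : Set E} (hU : IsOpen U) (hx : x ∈ U) {ε : ℝ} (hε : 0 < ε) :
    ∃ p, x ∈ bb E p ∧ rad p < ε ∧ closure (bb E p) ⊆ U := by
  obtain ⟨δ, hδ, hB⟩ := Metric.isOpen_iff.mp hU x hx
  obtain ⟨p, hp1, hp2⟩ := exists_small x (lt_min hε (show (0:ℝ) < δ / 3 by positivity))
  refine ⟨p, hp1, hp2.trans_le (min_le_left _ _), ?_⟩
  intro y hy
  apply hB
  have h1 : dist y (ctr E p) ≤ rad p := Metric.closure_ball_subset_closedBall hy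
  have h2 : dist x (ctr E p) < rad p := hp1
  have h3 : rad p < δ / 3 := hp2.trans_le (min_le_right _ _)
  have h4 : dist y x ≤ dist y (ctr E p) + dist x (ctr E p) := dist_triangle_right _ _ _
  change dist y x < δ
  linarith

lemma bb_subset_of_mem {p : ℕ × ℕ} {x : E} {U : Set E} {δ : ℝ} (hB : Metric.ball x δ ⊆ U)
    (hx : x ∈ bb E p) (hr : rad p < δ / 2) : bb E p ⊆ U := by
  intro y hy
  apply hB
  have h1 : dist y (ctr E p) < rad p := hy
  have h2 : dist x (ctr E p) < rad p := hx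
  have h4 : dist y x ≤ dist y (ctr E p) + dist x (ctr E p) := dist_triangle_right _ _ _
  change dist y x < δ
  linarith

lemma nested_limit [CompleteSpace E] (q : ℕ → ℕ × ℕ)
    (h1 : ∀ k, closure (bb E (q (k + 1))) ⊆ bb E (q k))
    (h2 : ∀ k : ℕ, rad (q (k + 1)) < 1 / ((k : ℝ) + 1)) :
    ∃ x : E, Tendsto (fun k => ctr E (q k)) atTop (𝓝 x) ∧ ∀ k, x ∈ bb E (q k) := by
  have hanti : ∀ j k, j ≤ k → bb E (q k) ⊆ bb E (q j) := by
    intro j k hjk
    induction k, hjk using Nat.le_induction with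
    | base => exact subset_rfl
    | succ k _ ih => exact (subset_closure.trans (h1 k)).trans ih
  have hc : CauchySeq (fun k => ctr E (q k)) := by
    rw [Metric.cauchySeq_iff']
    intro ε hε
    obtain ⟨n, hn⟩ := exists_nat_one_div_lt hε
    refine ⟨n + 1, fun m hm => ?_⟩
    have h3 : ctr E (q m) ∈ bb E (q (n + 1)) := hanti _ _ hm (ctr_mem _)
    have h4 : dist (ctr E (q m)) (ctr E (q (n + 1))) < rad (q (n + 1)) := h3
    exact h4.trans ((h2 n).trans hn)
  obtain ⟨x, hx⟩ := cauchySeq_tendsto_of_complete hc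
  refine ⟨x, hx, fun k => h1 k ?_⟩
  refine mem_closure_of_tendsto hx ?_
  filter_upwards [eventually_ge_atTop (k + 1)] with m hm
  exact hanti _ _ hm (ctr_mem _)

/-- The code of a closed subspace. -/
noncomputable def code (X : SB 𝕜 E) (p : ℕ × ℕ) : Bool := by
  classical exact decide (X ∈ Eplus (bb E p))

lemma code_eq_true (X : SB 𝕜 E) (p : ℕ × ℕ) : code X p = true ↔ X ∈ Eplus (bb E p) := by
  unfold code
  simp

lemma code_injective : Function.Injective (code : SB 𝕜 E → ℕ × ℕ → Bool) := by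
  have key : ∀ X Y : SB 𝕜 E, code X = code Y → X.sub ≤ Y.sub := by
    intro X Y h x hx
    by_contra hxY
    obtain ⟨p, hp1, -, hp2⟩ := exists_in_open x Y.closed.isOpen_compl hxY (ε := 1) one_pos
    have h1 : code X p = true := (code_eq_true X p).mpr ⟨x, hx, hp1⟩
    rw [h, code_eq_true] at h1
    obtain ⟨y, hy1, hy2⟩ := h1
    exact hp2 (subset_closure hy2) hy1
  intro X Y h
  exact SB.ext (le_antisymm (key X Y h) (key Y X h.symm))

noncomputable instance : TopologicalSpace (SB 𝕜 E) := TopologicalSpace.induced code inferInstance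

lemma inducing_code : IsInducing (code : SB 𝕜 E → ℕ × ℕ → Bool) := ⟨rfl⟩

variable (𝕜 E)

/-- The set of codes. -/
def good : Set (ℕ × ℕ → Bool) :=
  (⋂ p : ℕ × ℕ, ⋂ q : ℕ × ℕ, {s | bb E p ⊆ bb E q → (s p = true → s q = true)}) ∩
  ((⋂ p : ℕ × ℕ, ⋂ k : ℕ, {s | s p = true → ∃ q, (closure (bb E q) ⊆ bb E p ∧
      rad q < 1 / ((k : ℝ) + 1)) ∧ s q = true}) ∩
  ((⋂ p : ℕ × ℕ, {s | (0 : E) ∈ bb E p → s p = true}) ∩
  ((⋂ p : ℕ × ℕ, ⋂ q : ℕ × ℕ, ⋂ r : ℕ × ℕ, {s | (∀ x ∈ bb E p, ∀ y ∈ bb E q, x + y ∈ bb E r) →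
      (s p = true → s q = true → s r = true)}) ∩
  (⋂ i : ℕ, ⋂ p : ℕ × ℕ, ⋂ r : ℕ × ℕ, {s | (∀ x ∈ bb E p, denseSeq 𝕜 i • x ∈ bb E r) →
      (s p = true → s r = true)}))))

lemma isOpen_cond {P : Prop} {S : Set (ℕ × ℕ → Bool)} (hS : IsOpen S) :
    IsOpen {s | P → s ∈ S} := by
  by_cases h : P
  · simpa [h] using hS
  · simp [h]

lemma isOpen_coord (p : ℕ × ℕ) (b : Bool) : IsOpen {s : ℕ × ℕ → Bool | s p = b} := by
  have h : Continuous (fun s : ℕ × ℕ → Bool => s p) := continuous_apply p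
  exact (isOpen_discrete ({b} : Set Bool)).preimage h

lemma isOpen_imp {p : ℕ × ℕ} {S : Set (ℕ × ℕ → Bool)} (hS : IsOpen S) :
    IsOpen {s : ℕ × ℕ → Bool | s p = true → s ∈ S} := by
  have : {s : ℕ × ℕ → Bool | s p = true → s ∈ S} = {s | s p = false} ∪ S := by
    ext s
    by_cases h : s p = true
    · simp [h]
    · simp only [Bool.not_eq_true] at h
      simp [h]
  rw [this]
  exact (isOpen_coord p false).union hS

lemma isGδ_good : IsGδ (good 𝕜 E) := by
  refine IsGδ.inter ?_ (IsGδ.inter ?_ (IsGδ.inter ?_ (IsGδ.inter ?_ ?_)))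
  · refine IsGδ.iInter fun p => IsGδ.iInter fun q => IsOpen.isGδ ?_
    exact isOpen_cond (S := {s | s p = true → s ∈ {s : ℕ × ℕ → Bool | s q = true}})
      (isOpen_imp (isOpen_coord q true))
  · refine IsGδ.iInter fun p => IsGδ.iInter fun k => IsOpen.isGδ ?_
    refine isOpen_imp (S := {s | ∃ q, (closure (bb E q) ⊆ bb E p ∧
      rad q < 1 / ((k : ℝ) + 1)) ∧ s q = true}) ?_
    rw [Set.ofPred_exists]
    refine isOpen_iUnion fun q => ?_
    by_cases h : closure (bb E q) ⊆ bb E p ∧ rad q < 1 / ((k : ℝ) + 1)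
    · have e : {s : ℕ × ℕ → Bool | (closure (bb E q) ⊆ bb E p ∧ rad q < 1 / ((k : ℝ) + 1)) ∧
          s q = true} = {s | s q = true} := by
        ext s
        exact and_iff_right h
      rw [e]
      exact isOpen_coord q true
    · have e : {s : ℕ × ℕ → Bool | (closure (bb E q) ⊆ bb E p ∧ rad q < 1 / ((k : ℝ) + 1)) ∧
          s q = true} = ∅ := by
        ext s
        simp only [Set.mem_ofPred_eq, mem_empty_iff_false, iff_false, not_and]
        intro h2
        exact absurd h2 h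
      rw [e]
      exact isOpen_empty
  · refine IsGδ.iInter fun p => IsOpen.isGδ ?_
    exact isOpen_cond (S := {s | s p = true}) (isOpen_coord p true)
  · refine IsGδ.iInter fun p => IsGδ.iInter fun q => IsGδ.iInter fun r => IsOpen.isGδ ?_
    exact isOpen_cond (S := {s | s p = true → s ∈ {s : ℕ × ℕ → Bool | s q = true →
      s ∈ {s : ℕ × ℕ → Bool | s r = true}}}) (isOpen_imp (isOpen_imp (isOpen_coord r true)))
  · refine IsGδ.iInter fun i => IsGδ.iInter fun p => IsGδ.iInter fun r => IsOpen.isGδ ?_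
    exact isOpen_cond (S := {s | s p = true → s ∈ {s : ℕ × ℕ → Bool | s r = true}})
      (isOpen_imp (isOpen_coord r true))

variable {𝕜 E}

lemma code_mem_good (X : SB 𝕜 E) : code X ∈ good 𝕜 E := by
  refine ⟨?_, ?_, ?_, ?_, ?_⟩
  · simp only [mem_iInter, Set.mem_ofPred_eq]
    intro p q hpq h
    rw [code_eq_true] at h ⊢
    obtain ⟨x, hx1, hx2⟩ := h
    exact ⟨x, hx1, hpq hx2⟩
  · simp only [mem_iInter, Set.mem_ofPred_eq]
    intro p k h
    rw [code_eq_true] at h
    obtain ⟨x, hx1, hx2⟩ := h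
    obtain ⟨q, hq1, hq2, hq3⟩ := exists_in_open x (isOpen_bb p) hx2
      (ε := 1 / ((k : ℝ) + 1)) (by positivity)
    exact ⟨q, ⟨hq3, hq2⟩, (code_eq_true X q).mpr ⟨x, hx1, hq1⟩⟩
  · simp only [mem_iInter, Set.mem_ofPred_eq]
    intro p h
    exact (code_eq_true X p).mpr ⟨0, X.sub.zero_mem, h⟩
  · simp only [mem_iInter, Set.mem_ofPred_eq]
    intro p q r h hp hq
    rw [code_eq_true] at hp hq ⊢
    obtain ⟨x, hx1, hx2⟩ := hp
    obtain ⟨y, hy1, hy2⟩ := hq
    exact ⟨x + y, X.sub.add_mem hx1 hy1, h x hx2 y hy2⟩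
  · simp only [mem_iInter, Set.mem_ofPred_eq]
    intro i p r h hp
    rw [code_eq_true] at hp ⊢
    obtain ⟨x, hx1, hx2⟩ := hp
    exact ⟨_, X.sub.smul_mem _ hx1, h x hx2⟩

lemma exists_code [CompleteSpace E] {s : ℕ × ℕ → Bool} (hs : s ∈ good 𝕜 E) :
    ∃ X : SB 𝕜 E, code X = s := by
  obtain ⟨hA, hB, h0, hadd, hsmul⟩ := hs
  simp only [mem_iInter, Set.mem_ofPred_eq] at hA hB h0 hadd hsmul
  have hclosed : IsClosed {x : E | ∀ p, x ∈ bb E p → s p = true} := by
    rw [← isOpen_compl_iff, Metric.isOpen_iff]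
    intro x hx
    simp only [mem_compl_iff, Set.mem_ofPred_eq, not_forall] at hx
    obtain ⟨p, hp1, hp2⟩ := hx
    obtain ⟨δ, hδ, hB'⟩ := Metric.isOpen_iff.mp (isOpen_bb p) x hp1
    refine ⟨δ, hδ, fun y hy hcon => ?_⟩
    exact hp2 (hcon p (hB' hy))
  have hpoint : ∀ p, s p = true → ∃ x ∈ bb E p, ∀ q, x ∈ bb E q → s q = true := by
    intro p hp
    choose! nx hnx1 hnx2 using hB
    let Q : ℕ → ℕ × ℕ := fun n => Nat.rec p (fun k q => nx q k) n
    have hQs : ∀ k, s (Q k) = true := by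
      intro k
      induction k with
      | zero => exact hp
      | succ k ih => exact hnx2 (Q k) k ih
    obtain ⟨x, hx1, hx2⟩ := nested_limit (E := E) Q (fun k => (hnx1 (Q k) k (hQs k)).1)
      (fun k => (hnx1 (Q k) k (hQs k)).2)
    refine ⟨x, hx2 0, fun q hq => ?_⟩
    obtain ⟨δ, hδ, hB'⟩ := Metric.isOpen_iff.mp (isOpen_bb q) x hq
    obtain ⟨n, hn⟩ := exists_nat_one_div_lt (show (0:ℝ) < δ / 2 by positivity)
    refine hA (Q (n + 1)) q ?_ (hQs (n + 1))
    exact bb_subset_of_mem hB' (hx2 (n + 1)) (((hnx1 (Q n) n (hQs n)).2).trans hn)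
  let X : Submodule 𝕜 E :=
    { carrier := {x : E | ∀ p, x ∈ bb E p → s p = true}
      zero_mem' := fun p hp => h0 p hp
      add_mem' := by
        intro x y hx hy r hr
        obtain ⟨δ, hδ, hB'⟩ := Metric.isOpen_iff.mp (isOpen_bb r) (x + y) hr
        obtain ⟨p, hp1, hp2⟩ := exists_small x (show (0:ℝ) < δ / 4 by positivity)
        obtain ⟨q, hq1, hq2⟩ := exists_small y (show (0:ℝ) < δ / 4 by positivity)
        refine hadd p q r ?_ (hx p hp1) (hy q hq1)
        intro x' hx' y' hy'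
        apply hB'
        have e1 : dist x' (ctr E p) < rad p := hx'
        have e2 : dist x (ctr E p) < rad p := hp1
        have e3 : dist y' (ctr E q) < rad q := hy'
        have e4 : dist y (ctr E q) < rad q := hq1
        have e5 : dist x' x ≤ dist x' (ctr E p) + dist x (ctr E p) := dist_triangle_right _ _ _
        have e6 : dist y' y ≤ dist y' (ctr E q) + dist y (ctr E q) := dist_triangle_right _ _ _
        have e7 : dist (x' + y') (x + y) ≤ dist x' x + dist y' y := dist_add_add_le _ _ _ _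
        change dist (x' + y') (x + y) < δ
        linarith
      smul_mem' := by
        intro c x hx
        have hdense : ∀ i : ℕ, denseSeq 𝕜 i • x ∈ {x : E | ∀ p, x ∈ bb E p → s p = true} := by
          intro i r hr
          have hcont : Continuous (fun y : E => denseSeq 𝕜 i • y) := continuous_const_smul _
          have hopen := (isOpen_bb r).preimage hcont
          obtain ⟨p, hp1, -, hp2⟩ := exists_in_open x hopen hr (ε := 1) one_pos
          exact hsmul i p r (fun y hy => hp2 (subset_closure hy)) (hx p hp1)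
        have h1 : IsClosed {c : 𝕜 | c • x ∈ {x : E | ∀ p, x ∈ bb E p → s p = true}} :=
          hclosed.preimage (continuous_id.smul continuous_const)
        have h2 : {c : 𝕜 | c • x ∈ {x : E | ∀ p, x ∈ bb E p → s p = true}} = univ := by
          apply Set.eq_univ_of_univ_subset
          rw [← (denseRange_denseSeq 𝕜).closure_range]
          exact closure_minimal (by rintro _ ⟨i, rfl⟩; exact hdense i) h1
        have h3 : c ∈ {c : 𝕜 | c • x ∈ {x : E | ∀ p, x ∈ bb E p → s p = true}} := by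
          rw [h2]; trivial
        exact h3 }
  refine ⟨⟨X, hclosed⟩, ?_⟩
  funext p
  have h1 : code (⟨X, hclosed⟩ : SB 𝕜 E) p = true ↔ s p = true := by
    rw [code_eq_true]
    constructor
    · rintro ⟨x, hx1, hx2⟩
      exact hx1 p hx2
    · intro h
      obtain ⟨x, hx1, hx2⟩ := hpoint p h
      exact ⟨x, hx2, hx1⟩
  rw [Bool.eq_iff_iff]
  exact h1

lemma range_code [CompleteSpace E] : Set.range (code : SB 𝕜 E → ℕ × ℕ → Bool) = good 𝕜 E := by
  apply Set.Subset.antisymm
  · rintro _ ⟨X, rfl⟩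
    exact code_mem_good X
  · intro s hs
    exact exists_code hs

instance [CompleteSpace E] : PolishSpace (SB 𝕜 E) := by
  have h1 : IsEmbedding (code : SB 𝕜 E → ℕ × ℕ → Bool) := ⟨inducing_code, code_injective⟩
  have h0 : PolishSpace (ℕ × ℕ → Bool) := {  }
  have h2 : PolishSpace (Set.range (code : SB 𝕜 E → ℕ × ℕ → Bool)) := by
    apply polish_of_isGδ
    rw [range_code]
    exact isGδ_good 𝕜 E
  exact h1.toHomeomorph.isClosedEmbedding.polishSpace

lemma isOpen_Eplus_bb (p : ℕ × ℕ) : IsOpen (Eplus (bb E p) : Set (SB 𝕜 E)) := by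
  have : (Eplus (bb E p) : Set (SB 𝕜 E)) = code ⁻¹' {s | s p = true} := by
    ext X
    exact (code_eq_true X p).symm
  rw [this]
  exact (isOpen_coord p true).preimage inducing_code.continuous

lemma isClosed_Eplus_bb (p : ℕ × ℕ) : IsClosed (Eplus (bb E p) : Set (SB 𝕜 E)) := by
  have : (Eplus (bb E p) : Set (SB 𝕜 E)) = (code ⁻¹' {s | s p = false})ᶜ := by
    ext X
    rw [← code_eq_true]
    simp
  rw [this, isClosed_compl_iff]
  exact (isOpen_coord p false).preimage inducing_code.continuous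

lemma isOpen_Eplus {U : Set E} (hU : IsOpen U) : IsOpen (Eplus U : Set (SB 𝕜 E)) := by
  have : (Eplus U : Set (SB 𝕜 E)) = ⋃ p ∈ {p | bb E p ⊆ U}, Eplus (bb E p) := by
    ext X
    simp only [mem_iUnion, Set.mem_ofPred_eq, exists_prop]
    constructor
    · rintro ⟨x, hx1, hx2⟩
      obtain ⟨p, hp1, -, hp2⟩ := exists_in_open x hU hx2 (ε := 1) one_pos
      exact ⟨p, subset_closure.trans hp2, ⟨x, hx1, hp1⟩⟩
    · rintro ⟨p, hp, x, hx1, hx2⟩
      exact ⟨x, hx1, hp hx2⟩
  rw [this]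
  exact isOpen_biUnion fun p _ => isOpen_Eplus_bb p

lemma exists_clopen {O : Set (SB 𝕜 E)} (hO : IsOpen O) {X : SB 𝕜 E} (hX : X ∈ O) :
    ∃ B, IsClopen B ∧ X ∈ B ∧ B ⊆ O := by
  obtain ⟨O', hO', rfl⟩ := inducing_code.isOpen_iff.mp hO
  obtain ⟨V, hV1, hV2, hV3⟩ := compact_exists_isClopen_in_isOpen hO' hX
  exact ⟨code ⁻¹' V, hV1.preimage inducing_code.continuous, hV2, preimage_mono hV3⟩

end balls

end R213LIS
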