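import Mathlib
import Pool.Agent.R213.LIS.Top

open Filter Topology Set TopologicalSpace

namespace R213LIS

variable {𝕜 : Type*} [RCLike 𝕜] {E : Type*} [NormedAddCommGroup E] [NormedSpace 𝕜 E]
  [SeparableSpace E] [CompleteSpace E]

/-- Locally constant choice of an index of a covering set. -/
lemma choice {ι : Type*} [Nonempty ι] {O : Set (SB 𝕜 E)} (V : ι → Set (SB 𝕜 E))
    (hV : ∀ i, IsOpen (V i)) (hO : IsOpen O) (hcov : O ⊆ ⋃ i, V i) :
    ∃ f : SB 𝕜 E → ι, (∀ X ∈ O, X ∈ V (f X)) ∧ ∀ X ∈ O, ∀ᶠ Y in 𝓝 X, f Y = f X := by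
  have h1 : ∀ X : O, ∃ (i : ι) (B : Set (SB 𝕜 E)), IsClopen B ∧ (X : SB 𝕜 E) ∈ B ∧ B ⊆ V i ∩ O := by
    intro X
    obtain ⟨i, hi⟩ := mem_iUnion.mp (hcov X.2)
    obtain ⟨B, hB1, hB2, hB3⟩ := exists_clopen ((hV i).inter hO) (show (X : SB 𝕜 E) ∈ V i ∩ O from ⟨hi, X.2⟩)
    exact ⟨i, B, hB1, hB2, hB3⟩
  choose i B hB1 hB2 hB3 using h1
  obtain ⟨T, hT1, hT2⟩ := isOpen_iUnion_countable B (fun X => (hB1 X).isOpen)
  have hBO : ⋃ X, B X = O := by
    apply Set.Subset.antisymm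
    · exact iUnion_subset fun X => (hB3 X).trans inter_subset_right
    · intro X hX
      exact mem_iUnion.mpr ⟨⟨X, hX⟩, hB2 _⟩
  rcases T.eq_empty_or_nonempty with hT | hT
  · have hOe : O = ∅ := by
      rw [← hBO, ← hT2, hT]; simp
    refine ⟨fun _ => Classical.arbitrary ι, ?_, ?_⟩
    · intro X hX
      rw [hOe] at hX
      exact absurd hX (notMem_empty X)
    · intro X hX
      rw [hOe] at hX
      exact absurd hX (notMem_empty X)
  obtain ⟨e, he⟩ := hT1.exists_eq_range hT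
  have hcov2 : ∀ X ∈ O, ∃ n, X ∈ B (e n) := by
    intro X hX
    rw [← hBO, ← hT2] at hX
    simp only [mem_iUnion] at hX
    obtain ⟨Y, hY, hXY⟩ := hX
    rw [he] at hY
    obtain ⟨n, rfl⟩ := hY
    exact ⟨n, hXY⟩
  classical
  let N : SB 𝕜 E → ℕ := fun X => if h : ∃ n, X ∈ B (e n) then Nat.find h else 0
  have hN1 : ∀ X ∈ O, X ∈ B (e (N X)) := by
    intro X hX
    have h := hcov2 X hX
    have : N X = Nat.find h := dif_pos h
    rw [this]
    exact Nat.find_spec h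
  refine ⟨fun X => i (e (N X)), fun X hX => (hB3 _ (hN1 X hX)).1, fun X hX => ?_⟩
  have hloc : ∀ᶠ Y in 𝓝 X, N Y = N X := by
    have hX2 := hcov2 X hX
    have hNX : N X = Nat.find hX2 := dif_pos hX2
    have h2 : ∀ᶠ Y in 𝓝 X, Y ∈ B (e (N X)) := (hB1 _).isOpen.mem_nhds (hN1 X hX)
    have h3 : ∀ᶠ Y in 𝓝 X, ∀ m ∈ Finset.range (N X), Y ∉ B (e m) := by
      rw [Filter.eventually_all_finset]
      intro m hm
      have hm2 : X ∉ B (e m) := by
        rw [Finset.mem_range, hNX] at hm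
        exact Nat.find_min hX2 hm
      exact (hB1 (e m)).isClosed.isOpen_compl.mem_nhds hm2
    filter_upwards [h2, h3] with Y hY2 hY3
    have hY : ∃ n, Y ∈ B (e n) := ⟨_, hY2⟩
    have hNY : N Y = Nat.find hY := dif_pos hY
    rw [hNY, Nat.find_eq_iff]
    exact ⟨hY2, fun m hm => hY3 m (Finset.mem_range.mpr hm)⟩
  filter_upwards [hloc] with Y hY
  rw [hY]

/-- One refinement step. -/
lemma refine_step (q : ℕ × ℕ) (k : ℕ) : ∃ f : SB 𝕜 E → ℕ × ℕ,
    (∀ X, ∀ᶠ Y in 𝓝 X, f Y = f X) ∧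
    ∀ X ∈ (Eplus (bb E q) : Set (SB 𝕜 E)), closure (bb E (f X)) ⊆ bb E q ∧
      rad (f X) < 1 / ((k : ℝ) + 1) ∧ X ∈ (Eplus (bb E (f X)) : Set (SB 𝕜 E)) := by
  classical
  let V : ℕ × ℕ → Set (SB 𝕜 E) := fun p =>
    if closure (bb E p) ⊆ bb E q ∧ rad p < 1 / ((k : ℝ) + 1) then Eplus (bb E p) else ∅
  have hV : ∀ p, IsOpen (V p) := by
    intro p
    simp only [V]
    split_ifs
    · exact isOpen_Eplus_bb p
    · exact isOpen_empty
  have hcov : (Eplus (bb E q) : Set (SB 𝕜 E)) ⊆ ⋃ p, V p := by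
    rintro X ⟨x, hx1, hx2⟩
    obtain ⟨p, hp1, hp2, hp3⟩ := exists_in_open x (isOpen_bb q) hx2
      (ε := 1 / ((k : ℝ) + 1)) (by positivity)
    refine mem_iUnion.mpr ⟨p, ?_⟩
    simp only [V]
    rw [if_pos ⟨hp3, hp2⟩]
    exact ⟨x, hx1, hp1⟩
  obtain ⟨f, hf1, hf2⟩ := choice V hV (isOpen_Eplus_bb q) hcov
  refine ⟨fun X => if X ∈ (Eplus (bb E q) : Set (SB 𝕜 E)) then f X else q, ?_, ?_⟩
  · intro X
    by_cases hX : X ∈ (Eplus (bb E q) : Set (SB 𝕜 E))
    · filter_upwards [hf2 X hX, (isOpen_Eplus_bb q).mem_nhds hX] with Y hY1 hY2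
      rw [if_pos hY2, if_pos hX, hY1]
    · filter_upwards [(isClosed_Eplus_bb q).isOpen_compl.mem_nhds hX] with Y hY
      rw [if_neg hY, if_neg hX]
  · intro X hX
    beta_reduce
    rw [if_pos hX]
    have h := hf1 X hX
    simp only [V] at h
    split_ifs at h with h2
    · exact ⟨h2.1, h2.2, h⟩
    · exact absurd h (notMem_empty X)

/-- A continuous selection of points in the basic ball number `p`. -/
lemma exists_sel (p : ℕ × ℕ) : ∃ g : SB 𝕜 E → E, Continuous g ∧ (∀ X, g X ∈ X.sub) ∧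
    ∀ X ∈ (Eplus (bb E p) : Set (SB 𝕜 E)), g X ∈ bb E p := by
  classical
  choose F hF1 hF2 using (refine_step (𝕜 := 𝕜) (E := E))
  let Q : ℕ → SB 𝕜 E → ℕ × ℕ := fun n X => Nat.rec p (fun k q => F q k X) n
  have hQ0 : ∀ X, Q 0 X = p := fun X => rfl
  have hQs : ∀ n X, Q (n + 1) X = F (Q n X) n X := fun n X => rfl
  have hQloc : ∀ n X, ∀ᶠ Y in 𝓝 X, Q n Y = Q n X := by
    intro n
    induction n with
    | zero => intro X; exact Eventually.of_forall fun Y => rfl
    | succ n ih =>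
      intro X
      filter_upwards [ih X, hF1 (Q n X) n X] with Y hY1 hY2
      rw [hQs, hQs, hY1, hY2]
  have hQmem : ∀ X ∈ (Eplus (bb E p) : Set (SB 𝕜 E)), ∀ n, X ∈ (Eplus (bb E (Q n X)) : Set (SB 𝕜 E)) := by
    intro X hX n
    induction n with
    | zero => exact hX
    | succ n ih => rw [hQs]; exact (hF2 _ n X ih).2.2
  have hQ1 : ∀ X ∈ (Eplus (bb E p) : Set (SB 𝕜 E)), ∀ n,
      closure (bb E (Q (n + 1) X)) ⊆ bb E (Q n X) := by
    intro X hX n
    rw [hQs]
    exact (hF2 _ n X (hQmem X hX n)).1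
  have hQ2 : ∀ X ∈ (Eplus (bb E p) : Set (SB 𝕜 E)), ∀ n : ℕ,
      rad (Q (n + 1) X) < 1 / ((n : ℝ) + 1) := by
    intro X hX n
    rw [hQs]
    exact (hF2 _ n X (hQmem X hX n)).2.1
  have hlim : ∀ X : SB 𝕜 E, ∃ x : E, X ∈ (Eplus (bb E p) : Set (SB 𝕜 E)) →
      (Tendsto (fun k => ctr E (Q k X)) atTop (𝓝 x) ∧ ∀ k, x ∈ bb E (Q k X)) := by
    intro X
    by_cases hX : X ∈ (Eplus (bb E p) : Set (SB 𝕜 E))
    · obtain ⟨x, hx⟩ := nested_limit (E := E) (fun k => Q k X) (hQ1 X hX) (hQ2 X hX)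
      exact ⟨x, fun _ => hx⟩
    · exact ⟨0, fun h => absurd h hX⟩
  choose x hx using hlim
  let g : SB 𝕜 E → E := fun X => if X ∈ (Eplus (bb E p) : Set (SB 𝕜 E)) then x X else 0
  let a : ℕ → SB 𝕜 E → E := fun n X =>
    if X ∈ (Eplus (bb E p) : Set (SB 𝕜 E)) then ctr E (Q n X) else 0
  have hacont : ∀ n, Continuous (a n) := by
    intro n
    rw [continuous_iff_continuousAt]
    intro X
    have h1 : ∀ᶠ Y in 𝓝 X, a n Y = a n X := by
      by_cases hX : X ∈ (Eplus (bb E p) : Set (SB 𝕜 E))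
      · filter_upwards [hQloc n X, (isOpen_Eplus_bb p).mem_nhds hX] with Y hY1 hY2
        simp only [a]
        rw [if_pos hY2, if_pos hX, hY1]
      · filter_upwards [(isClosed_Eplus_bb p).isOpen_compl.mem_nhds hX] with Y hY
        simp only [a]
        rw [if_neg hY, if_neg hX]
    exact ContinuousAt.congr (f := fun _ => a n X) continuousAt_const
      (h1.mono fun Y hY => hY.symm)
  have hunif : TendstoUniformly (fun n => a (n + 1)) g atTop := by
    rw [Metric.tendstoUniformly_iff]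
    intro ε hε
    obtain ⟨n, hn⟩ := exists_nat_one_div_lt hε
    filter_upwards [eventually_ge_atTop n] with m hm X
    by_cases hX : X ∈ (Eplus (bb E p) : Set (SB 𝕜 E))
    · simp only [g, a]
      rw [if_pos hX, if_pos hX]
      have h1 : dist (x X) (ctr E (Q (m + 1) X)) < rad (Q (m + 1) X) := (hx X hX).2 (m + 1)
      have h2 := hQ2 X hX m
      have h3 : 1 / ((m : ℝ) + 1) ≤ 1 / ((n : ℝ) + 1) := by
        apply one_div_le_one_div_of_le (by positivity)
        have : (n : ℝ) ≤ m := by exact_mod_cast hm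
        linarith
      linarith
    · simp only [g, a]
      rw [if_neg hX, if_neg hX, dist_self]
      exact hε
  refine ⟨g, hunif.continuous (Frequently.of_forall fun n => hacont (n + 1)), ?_, ?_⟩
  · intro X
    by_cases hX : X ∈ (Eplus (bb E p) : Set (SB 𝕜 E))
    · simp only [g]
      rw [if_pos hX]
      -- a sequence of points of `X` converging to `x X`
      have h1 : ∀ n, ∃ y ∈ X.sub, y ∈ bb E (Q n X) := fun n => hQmem X hX n
      choose y hy1 hy2 using h1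
      have h2 : Tendsto y atTop (𝓝 (x X)) := by
        rw [← tendsto_add_atTop_iff_nat 1]
        rw [tendsto_iff_dist_tendsto_zero]
        have h3 : Tendsto (fun n : ℕ => 2 * (1 / ((n : ℝ) + 1))) atTop (𝓝 0) := by
          have := tendsto_one_div_add_atTop_nhds_zero_nat (𝕜 := ℝ)
          simpa using this.const_mul 2
        refine squeeze_zero (fun n => dist_nonneg) (fun n => ?_) h3
        have e1 : dist (y (n + 1)) (ctr E (Q (n + 1) X)) < rad (Q (n + 1) X) := hy2 (n + 1)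
        have e2 : dist (x X) (ctr E (Q (n + 1) X)) < rad (Q (n + 1) X) := (hx X hX).2 (n + 1)
        have e3 := hQ2 X hX n
        have e4 : dist (y (n + 1)) (x X) ≤ dist (y (n + 1)) (ctr E (Q (n + 1) X)) +
          dist (x X) (ctr E (Q (n + 1) X)) := dist_triangle_right _ _ _
        linarith
      exact X.closed.mem_of_tendsto h2 (Eventually.of_forall hy1)
    · simp only [g]
      rw [if_neg hX]
      exact X.sub.zero_mem
  · intro X hX
    simp only [g]
    rw [if_pos hX]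
    exact (hx X hX).2 0

end R213LIS
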