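import Mathlib
import Pool.Agent.R213.LIS.Sel

open Filter Topology Set TopologicalSpace

namespace R213LIS

variable {𝕜 : Type*} [RCLike 𝕜] {E : Type*} [NormedAddCommGroup E] [NormedSpace 𝕜 E]
  [SeparableSpace E] [CompleteSpace E]

lemma exists_seq : ∃ g : ℕ → SB 𝕜 E → E, (∀ n, Continuous (g n)) ∧ (∀ n X, g n X ∈ X.sub) ∧
    ∀ X : SB 𝕜 E, ∀ x ∈ X.sub, ∀ ε > 0, ∀ N : ℕ, ∃ n ≥ N, dist (g n X) x < ε := by
  choose G hG1 hG2 hG3 using (exists_sel (𝕜 := 𝕜) (E := E))
  let e : ℕ ≃ ℕ × (ℕ × ℕ) := (Denumerable.eqv _).symm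
  refine ⟨fun n => G (e n).2, fun n => hG1 _, fun n X => hG2 _ X, ?_⟩
  intro X x hx ε hε N
  obtain ⟨p, hp1, hp2⟩ := exists_small x (show (0:ℝ) < ε / 2 by positivity)
  have hX : X ∈ (Eplus (bb E p) : Set (SB 𝕜 E)) := ⟨x, hx, hp1⟩
  have hinf : {n | (e n).2 = p}.Infinite := by
    apply Set.infinite_of_injective_forall_mem (f := fun m : ℕ => e.symm (m, p))
    · intro a b hab
      have := e.symm.injective hab
      exact (Prod.mk.inj this).1
    · intro m
      simp
  obtain ⟨n, hn1, hn2⟩ := hinf.exists_gt N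
  refine ⟨n, hn2.le, ?_⟩
  have hn1' : (e n).2 = p := hn1
  beta_reduce
  rw [hn1']
  have h1 : dist (G p X) (ctr E p) < rad p := hG3 p X hX
  have h2 : dist x (ctr E p) < rad p := hp1
  have h3 : dist (G p X) x ≤ dist (G p X) (ctr E p) + dist x (ctr E p) := dist_triangle_right _ _ _
  linarith

lemma snoc_continuous {n : ℕ} {v : Fin n → SB 𝕜 E → E} {u : SB 𝕜 E → E}
    (hv : ∀ i, Continuous (v i)) (hu : Continuous u) :
    Continuous (fun X => (Fin.snoc (fun i => v i X) (u X) : Fin (n + 1) → E)) := by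
  refine continuous_pi fun i => ?_
  refine Fin.lastCases ?_ (fun j => ?_) i
  · simpa using hu
  · simpa using hv j

lemma exists_rho {O : Set (SB 𝕜 E)} (hO : IsOpen O) (hne : (Oᶜ).Nonempty) {c : ℝ} (hc : 0 < c) :
    ∃ ρ : SB 𝕜 E → ℝ, Continuous ρ ∧ (∀ X, 0 ≤ ρ X ∧ ρ X ≤ c) ∧ (∀ X ∈ O, 0 < ρ X) ∧
      ∀ X, X ∉ O → ρ X = 0 := by
  let m : MetricSpace (SB 𝕜 E) := metrizableSpaceMetric (SB 𝕜 E)
  refine ⟨fun X => min c (Metric.infDist X Oᶜ), ?_, ?_, ?_, ?_⟩
  · exact continuous_const.min (Metric.continuous_infDist_pt _)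
  · intro X
    exact ⟨le_min hc.le Metric.infDist_nonneg, min_le_left _ _⟩
  · intro X hX
    refine lt_min hc ?_
    rw [← hO.isClosed_compl.notMem_iff_infDist_pos hne]
    simpa using hX
  · intro X hX
    have h : Metric.infDist X Oᶜ = 0 := Metric.infDist_zero_of_mem hX
    beta_reduce
    rw [h]
    exact min_eq_right hc.le

/-- Continuous functions which select a point of the subspace. -/
def Sel (𝕜 : Type*) [RCLike 𝕜] (E : Type*) [NormedAddCommGroup E] [NormedSpace 𝕜 E]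
    [SeparableSpace E] : Type _ :=
  {w : SB 𝕜 E → E // Continuous w ∧ ∀ X, w X ∈ X.sub}

/-- the property of one step -/
def StepProp (g : ℕ → SB 𝕜 E → E) (n : ℕ) (v : Fin n → Sel 𝕜 E) (w : Sel 𝕜 E) : Prop :=
  (∀ X, dist (w.1 X) (g n X) ≤ 1 / ((n : ℝ) + 1)) ∧
    ∀ X : SB 𝕜 E, ¬ FiniteDimensional 𝕜 X.sub → LinearIndependent 𝕜 (fun i => (v i).1 X) →
      LinearIndependent 𝕜 (Fin.snoc (fun i => (v i).1 X) (w.1 X) : Fin (n + 1) → E)

lemma step {g : ℕ → SB 𝕜 E → E} (hg1 : ∀ n, Continuous (g n)) (hg2 : ∀ n X, g n X ∈ X.sub)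
    (hg3 : ∀ X : SB 𝕜 E, ∀ x ∈ X.sub, ∀ ε > 0, ∀ N : ℕ, ∃ n ≥ N, dist (g n X) x < ε)
    (n : ℕ) (v : Fin n → Sel 𝕜 E) : ∃ w : Sel 𝕜 E, StepProp g n v w := by
  classical
  set O : Set (SB 𝕜 E) := ⋃ m, {X | LinearIndependent 𝕜
    (Fin.snoc (fun i => (v i).1 X) (g m X) : Fin (n + 1) → E)} with hOdef
  have hLI : ∀ u : SB 𝕜 E → E, Continuous u → IsOpen {X : SB 𝕜 E | LinearIndependent 𝕜
      (Fin.snoc (fun i => (v i).1 X) (u X) : Fin (n + 1) → E)} := by
    intro u hu
    exact (isOpen_setOfPred_linearIndependent (𝕜 := 𝕜) (E := E) (ι := Fin (n + 1))).preimage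
      (snoc_continuous (fun i => (v i).2.1) hu)
  have hO : IsOpen O := isOpen_iUnion fun m => hLI _ (hg1 m)
  have hne : (Oᶜ).Nonempty := by
    refine ⟨⟨⊥, by simp⟩, ?_⟩
    rw [mem_compl_iff, hOdef, mem_iUnion]
    rintro ⟨m, hm⟩
    have h1 := LinearIndependent.ne_zero (Fin.last n) hm
    rw [Fin.snoc_last] at h1
    have h2 := hg2 m (⟨⊥, by simp⟩ : SB 𝕜 E)
    exact h1 ((Submodule.mem_bot 𝕜).mp h2)
  obtain ⟨ρ, hρ1, hρ2, hρ3, hρ4⟩ := exists_rho hO hne (show (0:ℝ) < 1 / ((n : ℝ) + 1) by positivity)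
  let cc : Bool → ℝ := fun b => if b then 1 else 1 / 2
  have hcc0 : ∀ b, 0 ≤ cc b := by intro b; cases b <;> simp [cc]
  have hcc1 : ∀ b, cc b ≤ 1 := by intro b; cases b <;> simp [cc]; norm_num
  let cand : ℕ × Bool → SB 𝕜 E → E := fun q X =>
    g n X + ((cc q.2 * (ρ X / (1 + ‖g q.1 X‖)) : ℝ) : 𝕜) • g q.1 X
  have hcand1 : ∀ q, Continuous (cand q) := by
    intro q
    refine (hg1 n).add (Continuous.smul ?_ (hg1 q.1))
    refine RCLike.continuous_ofReal.comp ?_
    refine continuous_const.mul (hρ1.div (continuous_const.add (hg1 q.1).norm) ?_)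
    intro X
    positivity
  have hcand2 : ∀ q X, dist (cand q X) (g n X) ≤ ρ X := by
    intro q X
    simp only [cand]
    rw [dist_eq_norm, add_sub_cancel_left, norm_smul, RCLike.norm_ofReal]
    have h1 : 0 ≤ ρ X := (hρ2 X).1
    have h2 : 0 < 1 + ‖g q.1 X‖ := by positivity
    rw [abs_of_nonneg (mul_nonneg (hcc0 _) (div_nonneg h1 h2.le))]
    calc cc q.2 * (ρ X / (1 + ‖g q.1 X‖)) * ‖g q.1 X‖
        ≤ 1 * (ρ X / (1 + ‖g q.1 X‖)) * (1 + ‖g q.1 X‖) := by
          gcongr
          · exact hcc1 _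
          · linarith
      _ = ρ X := by field_simp
  have hcand3 : ∀ q X, cand q X ∈ X.sub := fun q X =>
    X.sub.add_mem (hg2 n X) (X.sub.smul_mem _ (hg2 _ X))
  let V : ℕ × Bool → Set (SB 𝕜 E) := fun q => {X | LinearIndependent 𝕜
      (Fin.snoc (fun i => (v i).1 X) (cand q X) : Fin (n + 1) → E)}
  have hV : ∀ q, IsOpen (V q) := fun q => hLI _ (hcand1 q)
  have hcov : O ⊆ ⋃ q, V q := by
    intro X hX
    have hXO := hX
    rw [hOdef, mem_iUnion] at hX
    obtain ⟨m, hm⟩ := hX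
    have hm' : LinearIndependent 𝕜 (Fin.snoc (fun i => (v i).1 X) (g m X) : Fin (n + 1) → E) := hm
    rw [linearIndependent_finSnoc] at hm'
    obtain ⟨hm1, hm2⟩ := hm'
    by_contra hcon
    rw [mem_iUnion] at hcon
    push Not at hcon
    have h1 : ∀ b : Bool, cand (m, b) X ∈ Submodule.span 𝕜 (Set.range fun i => (v i).1 X) := by
      intro b
      by_contra hb
      exact hcon (m, b) (linearIndependent_finSnoc.mpr ⟨hm1, hb⟩)
    have h2 := Submodule.sub_mem _ (h1 true) (h1 false)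
    have h3 : cand (m, true) X - cand (m, false) X =
        (((1 / 2) * (ρ X / (1 + ‖g m X‖)) : ℝ) : 𝕜) • g m X := by
      simp only [cand, cc, if_true]
      rw [add_sub_add_left_eq_sub, ← sub_smul]
      congr 1
      rw [← RCLike.ofReal_sub]
      congr 1
      simp only [Bool.false_eq_true, if_false]
      ring
    rw [h3] at h2
    have h4 : (((1 / 2) * (ρ X / (1 + ‖g m X‖)) : ℝ) : 𝕜) ≠ 0 := by
      have h5 : 0 < ρ X := hρ3 X hXO
      have h6 : 0 < 1 + ‖g m X‖ := by positivity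
      have h7 : 0 < (1 / 2) * (ρ X / (1 + ‖g m X‖)) := by positivity
      exact_mod_cast h7.ne'
    exact hm2 ((Submodule.smul_mem_iff _ h4).mp h2)
  obtain ⟨f, hf1, hf2⟩ := choice V hV hO hcov
  let w : SB 𝕜 E → E := fun X => if X ∈ O then cand (f X) X else g n X
  have hw2 : ∀ X, dist (w X) (g n X) ≤ ρ X := by
    intro X
    simp only [w]
    split_ifs with h
    · exact hcand2 _ _
    · rw [dist_self]; exact (hρ2 X).1
  have hw1 : Continuous w := by
    rw [continuous_iff_continuousAt]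
    intro X
    by_cases hX : X ∈ O
    · have h1 : ∀ᶠ Y in 𝓝 X, cand (f X) Y = w Y := by
        filter_upwards [hf2 X hX, hO.mem_nhds hX] with Y hY1 hY2
        simp only [w]
        rw [if_pos hY2, hY1]
      exact ContinuousAt.congr (hcand1 (f X)).continuousAt h1
    · have h1 : w X = g n X := if_neg hX
      have h2 : Tendsto (fun Y => dist (g n Y) (w Y)) (𝓝 X) (𝓝 0) := by
        have h3 : Tendsto ρ (𝓝 X) (𝓝 0) := by
          have := hρ1.tendsto X
          rwa [hρ4 X hX] at this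
        refine squeeze_zero (fun Y => dist_nonneg) (fun Y => ?_) h3
        rw [dist_comm]
        exact hw2 Y
      have h3 : Tendsto (g n) (𝓝 X) (𝓝 (g n X)) := (hg1 n).tendsto X
      unfold ContinuousAt
      rw [h1]
      exact tendsto_of_tendsto_of_dist h3 h2
  refine ⟨⟨w, hw1, ?_⟩, fun X => (hw2 X).trans (hρ2 X).2, ?_⟩
  · intro X
    simp only [w]
    split_ifs with h
    · exact hcand3 _ _
    · exact hg2 n X
  · intro X hXinf hXLI
    have hXO : X ∈ O := by
      by_contra hX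
      apply hXinf
      set W : Submodule 𝕜 E := Submodule.span 𝕜 (Set.range fun i => (v i).1 X) with hW
      have hfin : FiniteDimensional 𝕜 W := FiniteDimensional.span_of_finite 𝕜 (Set.finite_range _)
      have hWc : IsClosed (W : Set E) := W.closed_of_finiteDimensional
      have h1 : ∀ m, g m X ∈ W := by
        intro m
        by_contra hm
        apply hX
        rw [hOdef, mem_iUnion]
        exact ⟨m, linearIndependent_finSnoc.mpr ⟨hXLI, hm⟩⟩
      have h2 : X.sub ≤ W := by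
        intro x hx
        have h3 : x ∈ closure (W : Set E) := by
          rw [Metric.mem_closure_iff]
          intro ε hε
          obtain ⟨m, -, hm⟩ := hg3 X x hx ε hε 0
          exact ⟨g m X, h1 m, by rw [dist_comm]; exact hm⟩
        rwa [hWc.closure_eq] at h3
      exact Submodule.finiteDimensional_of_le h2
    have h2 := hf1 X hXO
    have h3 : w X = cand (f X) X := if_pos hXO
    change LinearIndependent 𝕜 (Fin.snoc (fun i => (v i).1 X) (w X) : Fin (n + 1) → E)
    rw [h3]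
    exact h2

/-- The recursion. -/
noncomputable def hseq (S : ∀ n, (Fin n → Sel 𝕜 E) → Sel 𝕜 E) : ℕ → Sel 𝕜 E
  | n => S n (fun i => hseq S i.1)
termination_by n => n
decreasing_by exact i.2

lemma hseq_eq (S : ∀ n, (Fin n → Sel 𝕜 E) → Sel 𝕜 E) (n : ℕ) :
    hseq S n = S n (fun i => hseq S i.1) := by
  rw [hseq]

lemma linearIndependent_nat {u : ℕ → E} (h : ∀ n, LinearIndependent 𝕜 (fun i : Fin n => u i)) :
    LinearIndependent 𝕜 u := by
  rw [linearIndependent_iff']
  intro s c hs i hi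
  obtain ⟨N, hN⟩ : ∃ N, s ⊆ Finset.range N := by
    refine ⟨s.sup id + 1, fun j hj => ?_⟩
    rw [Finset.mem_range]
    exact Nat.lt_succ_of_le (Finset.le_sup (f := id) hj)
  have h1 := Fintype.linearIndependent_iff.mp (h N) (fun j => if (j : ℕ) ∈ s then c j else 0) (by
    have e1 : ∑ j : Fin N, (if (j : ℕ) ∈ s then c j else 0) • u j =
        ∑ j ∈ Finset.range N, (if j ∈ s then c j else 0) • u j :=
      (Finset.sum_range (fun j => (if j ∈ s then c j else 0) • u j)).symm
    rw [e1, ← hs, ← Finset.sum_subset hN]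
    · refine Finset.sum_congr rfl fun j hj => ?_
      rw [if_pos hj]
    · intro j _ hj
      rw [if_neg hj, zero_smul]) ⟨i, Finset.mem_range.mp (hN hi)⟩
  simpa [hi] using h1

theorem exists_selection : ∃ h : ℕ → SB 𝕜 E → E, (∀ n, Continuous (h n)) ∧
    (∀ X : SB 𝕜 E, closure (Set.range fun n => h n X) = (X.sub : Set E)) ∧
    ∀ X : SB 𝕜 E, ¬ FiniteDimensional 𝕜 X.sub → LinearIndependent 𝕜 (fun n => h n X) := by
  obtain ⟨g, hg1, hg2, hg3⟩ := exists_seq (𝕜 := 𝕜) (E := E)
  choose S hS using (step hg1 hg2 hg3)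
  let h : ℕ → Sel 𝕜 E := hseq S
  have hh : ∀ n, StepProp g n (fun i => h i.1) (h n) := by
    intro n
    have e : h n = S n (fun i => h i.1) := hseq_eq S n
    rw [e]
    exact hS n (fun i => h i.1)
  refine ⟨fun n => (h n).1, fun n => (h n).2.1, ?_, ?_⟩
  · intro X
    apply Set.Subset.antisymm
    · refine closure_minimal ?_ X.closed
      rintro _ ⟨n, rfl⟩
      exact (h n).2.2 X
    · intro x hx
      rw [Metric.mem_closure_iff]
      intro ε hε
      obtain ⟨N, hN⟩ := exists_nat_one_div_lt (show (0:ℝ) < ε / 2 by positivity)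
      obtain ⟨n, hn1, hn2⟩ := hg3 X x hx (ε / 2) (by positivity) N
      refine ⟨(h n).1 X, ⟨n, rfl⟩, ?_⟩
      have h1 := (hh n).1 X
      have h2 : 1 / ((n : ℝ) + 1) ≤ 1 / ((N : ℝ) + 1) := by
        apply one_div_le_one_div_of_le (by positivity)
        have : (N : ℝ) ≤ n := by exact_mod_cast hn1
        linarith
      have h3 : dist ((h n).1 X) x ≤ dist ((h n).1 X) (g n X) + dist (g n X) x := dist_triangle _ _ _
      rw [dist_comm]
      linarith
  · intro X hX
    apply linearIndependent_nat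
    intro n
    induction n with
    | zero => exact linearIndependent_empty_type
    | succ n ih =>
      have h1 := (hh n).2 X hX ih
      convert h1 using 1
      funext i
      refine Fin.lastCases ?_ (fun j => ?_) i
      · simp
      · simp

end R213LIS
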